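import Pool.Agent.K3h5.IB.Stm

/-!
# Iterated biased random walks: bricks CONS and CONSY (helper25)
-/

set_option autoImplicit false

open Filter Topology Pool.Agent.K3h5.IB

namespace Pool.Agent.K3h25.IB

variable {d : ℕ}

lemma ht_add (δ : Fin d → ℝ) (a b : V d) : ht δ (a + b) = ht δ a + ht δ b := by
  simp only [ht, Pi.add_apply, Int.cast_add, mul_add, Finset.sum_add_distrib]

lemma ht_zero (δ : Fin d → ℝ) : ht δ (0 : V d) = 0 := by
  simp [ht]

lemma path0_zero (x : ℕ → S d) : path0 x 0 = 0 := by simp [path0]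

lemma mem_nbrs (Z : Set (V d × D d)) (v : V d) (e : D d) : e ∈ nbrs Z v ↔ (v, e) ∈ Z := by
  classical
  simp [nbrs]

lemma trace_shift (y' : ℕ → V d) (w v : V d) (e : D d) :
    (v, e) ∈ trace (fun n => w + y' n) ↔ (v - w, e) ∈ trace y' := by
  simp only [trace, Set.mem_setOf_eq]
  constructor
  · rintro ⟨n, ⟨h1, h2⟩ | ⟨h1, h2⟩⟩
    · refine ⟨n, Or.inl ⟨?_, ?_⟩⟩
      · rw [← h1]; abel
      · have : y' (n + 1) = v + vec e - w := by rw [← h2]; abel
        rw [this]; abel
    · refine ⟨n, Or.inr ⟨?_, ?_⟩⟩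
      · rw [← h1]; abel
      · have : y' n = v + vec e - w := by rw [← h2]; abel
        rw [this]; abel
  · rintro ⟨n, ⟨h1, h2⟩ | ⟨h1, h2⟩⟩
    · refine ⟨n, Or.inl ⟨?_, ?_⟩⟩
      · rw [h1]; abel
      · rw [h2]; abel
    · refine ⟨n, Or.inr ⟨?_, ?_⟩⟩
      · rw [h1]; abel
      · rw [h2]; abel

lemma cnt_shift (y' : ℕ → V d) (w : V d) (n : ℕ) : cnt (fun n => w + y' n) n = cnt y' n := by
  simp only [cnt, add_right_inj]

/-- The common step of CONS and CONSY: two nice graphs `Z` (for `x`) and `Z'` (for the shifted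
input) which agree to the right of the cut `c`. -/
theorem step (hCUTG : S_CUTG) (hCROSS : S_CROSS) (hEXC : S_EXC)
    (δ : Fin d → ℝ) (x : ℕ → S d) (hx : Good δ x) (c : ℕ) (hc : Cut δ x c) (a : ℕ)
    (Z Z' : Set (V d × D d)) (hZ : NiceG δ x Z) (hZ' : NiceG δ (sh c x) Z')
    (hZZ : ∀ v e, ht δ (path0 x c) < ht δ v → ((v, e) ∈ Z ↔ (v - path0 x c, e) ∈ Z')) :
    (∀ v e, ht δ (path0 x c) < ht δ v →
      ((v, e) ∈ trace (route (stk x a Z)) ↔
        (v - path0 x c, e) ∈ trace (route (stk (sh c x) a Z')))) ∧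
    (∀ h, ht δ (path0 x c) < ht δ h → ∀ B : Set (V d), (∀ v ∈ B, ht δ (path0 x c) < ht δ v) →
      (∃ n, route (stk x a Z) n = h) →
      (∃ n, path0 x c + route (stk (sh c x) a Z') n = h) ∧
      visits (route (stk x a Z)) B (sInf {n | route (stk x a Z) n = h}) =
        visits (fun n => path0 x c + route (stk (sh c x) a Z') n) B
          (sInf {n | path0 x c + route (stk (sh c x) a Z') n = h})) := by
  classical
  obtain ⟨hsh, -, hcut, -, -, -, -⟩ := hCUTG d δ x hx
  obtain ⟨-, -, hcsh, hgood, hidx, -⟩ := hcut c hc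
  have hc0 : Cut δ (sh c x) 0 := (hcsh 0).2 (by simpa using hc)
  set w := path0 x c with hw
  obtain ⟨hy0, hyD, -, hyv, hyc⟩ := hCROSS d δ x hx Z hZ a _ rfl
  obtain ⟨hy0', hyD', -, -, hyc'⟩ := hCROSS d δ (sh c x) hgood Z' hZ' a _ rfl
  obtain ⟨hyio, hyin, -, -⟩ := hyc c hc
  obtain ⟨hyio', hyin', -, -⟩ := hyc' 0 hc0
  have hp0 : path0 (sh c x) 0 = 0 := path0_zero _
  have hp1 : w + path0 (sh c x) (0 + 1) = path0 x (c + 1) := by
    rw [hsh c (0 + 1)]
    simp only [zero_add]
    rw [← hw]; abel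
  set y := route (stk x a Z) with hy
  set y' := route (stk (sh c x) a Z') with hy'
  have hE := hEXC d {v | ht δ w < ht δ v} w (path0 x (c + 1)) (stk x a Z)
    (fun v m => w + stk (sh c x) a Z' (v - w) m) y (fun n => w + y' n)
    (by
      simp only [Set.mem_setOf_eq, not_lt]
      rw [hy0, ← path0_zero x]
      exact hc.1 0 (Nat.zero_le c))
    (by
      simp only [Set.mem_setOf_eq, not_lt]
      rw [hy0', add_zero])
    hyD
    (by
      intro n
      change w + y' (n + 1) = w + stk (sh c x) a Z' (w + y' n - w) (cnt (fun n => w + y' n) n)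
      rw [cnt_shift, add_sub_cancel_left, hyD' n])
    (by
      intro n h1 h2
      simp only [Set.mem_setOf_eq, not_lt] at h1 h2
      exact hyin n h1 h2)
    (by
      intro n h1 h2
      simp only [Set.mem_setOf_eq, not_lt] at h1 h2
      rw [ht_add] at h1 h2
      obtain ⟨h3, h4⟩ := hyin' n (by rw [hp0, ht_zero]; linarith) (by rw [hp0, ht_zero]; linarith)
      refine ⟨?_, ?_⟩
      · change w + y' n = w
        rw [h3, hp0, add_zero]
      · change w + y' (n + 1) = path0 x (c + 1)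
        rw [h4, hp1])
    (by
      intro N
      exact hyio N)
    (by
      intro N
      obtain ⟨n, hn, h⟩ := hyio' N
      refine ⟨n, hn, ?_⟩
      simp only [Set.mem_setOf_eq]
      rw [ht_add]
      rw [hp0, ht_zero] at h
      linarith)
    (by
      intro n hn m
      simp only [Set.mem_setOf_eq] at hn
      have hn1 : nbrs Z (y n) = nbrs Z' (y n - w) := by
        ext e
        rw [mem_nbrs, mem_nbrs]
        exact hZZ _ _ hn
      have hi : idx x (y n) = idx (sh c x) (y n - w) + c := by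
        rw [hidx (y n) hn (hyv n), add_comm]
      change y n + vec (x (idx x (y n)) (some (a, m, nbrs Z (y n)))) =
        w + (y n - w + vec (sh c x (idx (sh c x) (y n - w)) (some (a, m, nbrs Z' (y n - w)))))
      rw [hn1, hi]
      change _ = w + (y n - w + vec (x (idx (sh c x) (y n - w) + c)
        (some (a, m, nbrs Z' (y n - w)))))
      abel)
  obtain ⟨hE1, hE2⟩ := hE
  refine ⟨?_, ?_⟩
  · intro v e hv
    rw [hE1 v hv e]
    exact trace_shift y' w v e
  · intro h hh B hB hn
    exact hE2 h hh B hB hn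

theorem t_CONS : S_ROUTE → S_FAIR → S_CUTG → S_NICE → S_CROSS → S_IND → S_EXC → S_CONS := by
  intro _ _ hCUTG _ hCROSS hIND hEXC d δ x hx c hc
  obtain ⟨hsh, -, hcut, -, -, -, -⟩ := hCUTG d δ x hx
  obtain ⟨-, -, hcsh, hgood, -, htr⟩ := hcut c hc
  have key : ∀ i v e, ht δ (path0 x c) < ht δ v →
      ((v, e) ∈ graph (XX x) (i + 1) ↔
        (v - path0 x c, e) ∈ graph (XX (sh c x)) (i + 1)) := by
    intro i
    induction i with
    | zero => intro v e hv; exact htr v e hv
    | succ i ih =>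
      exact (step hCUTG hCROSS hEXC δ x hx c hc (i + 1) (graph (XX x) (i + 1))
        (graph (XX (sh c x)) (i + 1)) ((hIND d δ x hx).1 i) ((hIND d δ _ hgood).1 i) ih).1
  refine ⟨key, ?_⟩
  intro v e hv
  simp only [graphInf, Set.mem_iInter]
  constructor
  · intro h i
    cases i with
    | zero => exact Set.mem_univ _
    | succ i => exact (key i v e hv).1 (h (i + 1))
  · intro h i
    cases i with
    | zero => exact Set.mem_univ _
    | succ i => exact (key i v e hv).2 (h (i + 1))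

theorem t_CONSY : S_ROUTE → S_FAIR → S_CUTG → S_NICE → S_CROSS → S_IND → S_EXC → S_CONS →
    S_CONSY := by
  classical
  intro _ _ hCUTG _ hCROSS hIND hEXC hCONS d δ x hx c hc c' hcc hc' a b
  obtain ⟨hsh, -, hcut, -, -, -, -⟩ := hCUTG d δ x hx
  obtain ⟨-, -, hcsh, hgood, -, -⟩ := hcut c hc
  obtain ⟨-, -, -, -, hyc⟩ := hCROSS d δ x hx (graphInf (XX x)) (hIND d δ x hx).2 0 _ rfl
  obtain ⟨-, -, ⟨n0, hn0, -⟩, -⟩ := hyc c' hc'
  obtain ⟨-, h2⟩ := step hCUTG hCROSS hEXC δ x hx c hc 0 (graphInf (XX x))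
    (graphInf (XX (sh c x))) (hIND d δ x hx).2 (hIND d δ _ hgood).2 (hCONS d δ x hx c hc).2
  obtain ⟨-, h3⟩ := h2 (path0 x c') (hc.2 c' hcc) (block x (c + a) (c + b))
    (by
      rintro v ⟨k, hk1, -, rfl⟩
      exact hc.2 k (by omega)) ⟨n0, hn0⟩
  change visits (YY x) (block x (c + a) (c + b)) (sInf {n | YY x n = path0 x c'}) = _ at h3
  rw [h3]
  change visits (fun n => path0 x c + YY (sh c x) n) (block x (c + a) (c + b))
    (sInf {n | path0 x c + YY (sh c x) n = path0 x c'}) = _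
  have hset : {n | path0 x c + YY (sh c x) n = path0 x c'} =
      {n | YY (sh c x) n = path0 (sh c x) (c' - c)} := by
    ext n
    simp only [Set.mem_setOf_eq]
    rw [hsh c (c' - c), show c + (c' - c) = c' by omega]
    constructor
    · intro h
      rw [← h]; abel
    · intro h
      rw [h]; abel
  rw [hset]
  unfold visits
  congr 1
  apply Finset.filter_congr
  intro n _
  simp only [block, Set.mem_setOf_eq]
  constructor
  · rintro ⟨k, h4, h5, h6⟩
    refine ⟨k - c, by omega, by omega, ?_⟩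
    rw [hsh c (k - c), show c + (k - c) = k by omega, h6]; abel
  · rintro ⟨k, h4, h5, h6⟩
    refine ⟨c + k, by omega, by omega, ?_⟩
    rw [← h6, hsh c k]; abel

end Pool.Agent.K3h25.IB
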